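import Pool.Agent.W670.ML.Defs2

/-! ML2-BD: the bound of the power of the number of fields. -/

set_option autoImplicit false

namespace Pool.Agent.W135.ML2

open NumberField Pool.Agent.W670.ML

/-- restriction of scalars is injective -/
theorem rs_inj {K Ω : Type} [Field K] [NumberField K] [Field Ω] [Algebra K Ω]
    [Algebra ℚ Ω] [IsScalarTower ℚ K Ω] {L L' : IntermediateField K Ω}
    (h : L.restrictScalars ℚ = L'.restrictScalars ℚ) : L = L' := by
  ext x
  have : x ∈ L.restrictScalars ℚ ↔ x ∈ L'.restrictScalars ℚ := by rw [h]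
  exact this

/-- the real estimate -/
theorem est (n m r q : ℕ) (hn : 2 ≤ n) (hm : 1 ≤ m) (hq : 1 ≤ q) (hqn : q * n ≤ n ^ r)
    (δ : ℝ) (hδ : 0 < δ) (a X : ℝ) (ha : 1 ≤ a) (hX : 1 ≤ X) :
    (a ^ (q * n) * X ^ (r * q)) ^ ((1 : ℝ) / ((q * m : ℕ) : ℝ) + δ) ≤
      a ^ ((n : ℝ) / (m : ℝ) + (n : ℝ) ^ r * δ) *
        X ^ ((r : ℝ) / (m : ℝ) + (r : ℝ) * (n : ℝ) ^ r * δ) := by
  have hm' : (0 : ℝ) < m := by exact_mod_cast hm
  have hq' : (0 : ℝ) < q := by exact_mod_cast hq
  have ha0 : (0 : ℝ) ≤ a := by linarith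
  have hX0 : (0 : ℝ) ≤ X := by linarith
  have h1 : ((q : ℝ) * n) ≤ (n : ℝ) ^ r := by exact_mod_cast hqn
  have h2 : (q : ℝ) ≤ (n : ℝ) ^ r := by
    have : q ≤ n ^ r := le_trans (Nat.le_mul_of_pos_right q (by omega)) hqn
    exact_mod_cast this
  rw [Real.mul_rpow (by positivity) (by positivity), ← Real.rpow_natCast a, ← Real.rpow_natCast X,
    ← Real.rpow_mul ha0, ← Real.rpow_mul hX0]
  have e1 : ((q * n : ℕ) : ℝ) * ((1 : ℝ) / ((q * m : ℕ) : ℝ) + δ) ≤
      (n : ℝ) / (m : ℝ) + (n : ℝ) ^ r * δ := by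
    push_cast
    have : (q : ℝ) * n * (1 / ((q : ℝ) * m) + δ) = (n : ℝ) / m + (q * n) * δ := by
      field_simp
    rw [this]
    have := mul_le_mul_of_nonneg_right h1 hδ.le
    linarith
  have e2 : ((r * q : ℕ) : ℝ) * ((1 : ℝ) / ((q * m : ℕ) : ℝ) + δ) ≤
      (r : ℝ) / (m : ℝ) + (r : ℝ) * (n : ℝ) ^ r * δ := by
    push_cast
    have : (r : ℝ) * q * (1 / ((q : ℝ) * m) + δ) = (r : ℝ) / m + (r * q) * δ := by
      field_simp
    rw [this]
    have h3 : (r : ℝ) * q ≤ (r : ℝ) * (n : ℝ) ^ r := mul_le_mul_of_nonneg_left h2 (by positivity)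
    have := mul_le_mul_of_nonneg_right h3 hδ.le
    linarith
  exact mul_le_mul (Real.rpow_le_rpow_of_exponent_le ha e1)
    (Real.rpow_le_rpow_of_exponent_le hX e2) (by positivity) (by positivity)

theorem bd (h1 : S_PS) (h2 : S_AB) (h3 : S_UB) (h4 : S_SF) (h5 : S_MI) : S_BD := by
  classical
  intro hU d n m r G hn hr hG hm δ hδ
  obtain ⟨-, hMI⟩ := h5 n G hn hG
  obtain ⟨hm1, hmn, hmg⟩ := hMI m hm
  rcases Nat.eq_zero_or_pos d with rfl | hd
  · refine ⟨1, one_pos, fun K _ _ hK => ?_⟩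
    exact absurd hK (Module.finrank_pos).ne'
  have hc : ∀ q : ℕ, ∃ c : ℝ, 0 < c ∧ (1 ≤ q → ∀ Y : ℝ, 0 < Y →
      ((∑ H ∈ bigInd (q * n * d) (q * m), Pool.Agent.W670.ML.N ℚ (q * n * d) H Y : ℕ) : ℝ) ≤
        c * Y ^ ((1 : ℝ) / ((q * m : ℕ) : ℝ) + δ)) := by
    intro q
    rcases Nat.eq_zero_or_pos q with rfl | hq
    · exact ⟨1, one_pos, fun h => absurd h (by omega)⟩
    · have h2 : 2 ≤ q * n * d := by
        calc 2 = 1 * 2 * 1 := by norm_num
          _ ≤ q * n * d := Nat.mul_le_mul (Nat.mul_le_mul hq hn) hd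
      obtain ⟨c, hc, hcb⟩ := h3 hU (q * n * d) (q * m) h2 (Nat.mul_pos hq hm1) δ hδ
      exact ⟨c, hc, fun _ => hcb⟩
  choose c hc0 hcb using hc
  choose C hC using h4
  set Cm : ℕ := ∑ N ∈ Finset.range (n ^ r * d + 1), C N with hCmdef
  have hCm : ∀ N, N ≤ n ^ r * d → C N ≤ Cm := fun N hN =>
    Finset.single_le_sum (f := C) (fun _ _ => Nat.zero_le _) (Finset.mem_range.2 (by omega))
  set D : ℝ := ∑ q ∈ Finset.Icc 1 (n ^ r), c q with hD
  have hD0 : 0 ≤ D := Finset.sum_nonneg fun q _ => (hc0 q).le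
  refine ⟨(Cm : ℝ) ^ r * D + 1, by positivity, ?_⟩
  intro K _ _ hK X hX
  have hdK : (1 : ℝ) ≤ ((discr K).natAbs : ℝ) := by
    have : 1 ≤ (discr K).natAbs := Int.natAbs_pos.2 (discr_ne_zero K)
    exact_mod_cast this
  set E : ℝ := ((discr K).natAbs : ℝ) ^ ((n : ℝ) / (m : ℝ) + (n : ℝ) ^ r * δ) *
          X ^ ((r : ℝ) / (m : ℝ) + (r : ℝ) * (n : ℝ) ^ r * δ) with hE
  have hE0 : 0 ≤ E := by positivity
  rw [mul_assoc, ← hE]
  by_cases hF : (fields K n G X).Finite
  swap
  · have : Pool.Agent.W670.ML.N K n G X = 0 := Set.Infinite.ncard hF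
    rw [this]
    simp only [Nat.cast_zero]
    rw [zero_pow (by omega)]
    positivity
  have hac : IsAlgClosure ℚ (AlgebraicClosure K) := IsAlgClosure.ofAlgebraic ℚ K (AlgebraicClosure K)
  set F := hF.toFinset with hFdef
  set P : Finset (Fin r → IntermediateField K (AlgebraicClosure K)) :=
    Fintype.piFinset (fun _ : Fin r => F) with hP
  have hPcard : P.card = (Pool.Agent.W670.ML.N K n G X) ^ r := by
    rw [hP, Fintype.card_piFinset]
    simp only [Finset.prod_const, Finset.card_univ, Fintype.card_fin]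
    rw [hFdef, ← Set.ncard_eq_toFinset_card _ hF]
    rfl
  let f : (Fin r → IntermediateField K (AlgebraicClosure K)) →
      IntermediateField ℚ (AlgebraicClosure K) := fun t => (⨆ i, t i).restrictScalars ℚ
  -- the facts about one compositum
  have key : ∀ t ∈ P, ∃ q : ℕ, 1 ≤ q ∧ q * n ≤ n ^ r ∧ Module.finrank ℚ (f t) = q * n * d ∧
      (∃ _ : NumberField (f t), ((discr (f t)).natAbs : ℝ) ≤
        ((discr K).natAbs : ℝ) ^ (q * n) * X ^ (r * q)) ∧
      ∀ H : Subgroup (Equiv.Perm (Fin (q * n * d))),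
        HasGroup ℚ (AlgebraicClosure K) (q * n * d) H (f t) → ∀ h ∈ H, h ≠ 1 → q * m ≤ ind h := by
    intro t ht
    have ht' : ∀ i, t i ∈ fields K n G X := by
      intro i
      have := (Fintype.mem_piFinset.1 ht) i
      rwa [hFdef, Set.Finite.mem_toFinset] at this
    obtain ⟨q, hq1, hq2, hq3, ⟨hq4, hq5⟩, hq6⟩ := h1 K n m r G X t hn hr hG hm hX ht'
    refine ⟨q, hq1, hq2, ?_, ?_, fun H hH => hq6 (q * n * d) H hH⟩
    · have h5 : Module.finrank ℚ ↥(f t) = Module.finrank ℚ ↥(⨆ i, t i) := rfl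
      rw [h5, ← Module.finrank_mul_finrank ℚ K ↥(⨆ i, t i), hq3, hK, mul_comm]
    · have e : ↥(⨆ i, t i) ≃+* ↥(f t) := RingEquiv.refl ↥(⨆ i, t i)
      have hNF : NumberField ↥(f t) :=
        NumberField.of_ringEquiv (K := ↥(⨆ i, t i)) (L := ↥(f t)) (e := e)
      refine ⟨hNF, ?_⟩
      have hdisc : discr ↥(f t) = discr ↥(⨆ i, t i) := by
        symm
        exact NumberField.discr_eq_discr_of_ringEquiv _ e
      rw [hdisc]
      exact hq5
  -- the fibres
  have hfib : P.card ≤ Cm ^ r * (P.image f).card := by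
    apply Finset.card_le_mul_card_image
    intro M hM
    obtain ⟨t0, ht0, rfl⟩ := Finset.mem_image.1 hM
    obtain ⟨q, hq1, hq2, hq3, ⟨hq4, -⟩, -⟩ := key t0 ht0
    have hpos : 0 < q * n * d := Nat.mul_pos (Nat.mul_pos hq1 (by omega)) hd
    obtain ⟨hfin, hcard⟩ := hC (q * n * d) (AlgebraicClosure K) (f t0) hq3 hpos
    have hCle : hfin.toFinset.card ≤ Cm := by
      rw [← Set.ncard_eq_toFinset_card _ hfin]
      exact hcard.trans (hCm _ (Nat.mul_le_mul_right d hq2))
    calc (P.filter (fun t => f t = f t0)).card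
        ≤ (Fintype.piFinset (fun _ : Fin r => hfin.toFinset)).card := by
          refine Finset.card_le_card_of_injOn
            (fun t i => (t i).restrictScalars ℚ) ?_ ?_
          · intro t ht
            rw [Finset.mem_coe, Finset.mem_filter] at ht
            rw [Finset.mem_coe, Fintype.mem_piFinset]
            intro i
            rw [Set.Finite.mem_toFinset]
            show (t i).restrictScalars ℚ ≤ f t0
            rw [← ht.2]
            have h6 : t i ≤ ⨆ i, t i := le_iSup t i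
            intro x hx
            exact h6 hx
          · intro t _ t' _ htt
            funext i
            exact rs_inj (congrFun htt i)
      _ = hfin.toFinset.card ^ r := by
          rw [Fintype.card_piFinset]
          simp
      _ ≤ Cm ^ r := Nat.pow_le_pow_left hCle r
  -- the image
  have himg : ((P.image f).card : ℝ) ≤ D * E := by
    obtain ⟨SS, hSS⟩ : ∃ SS : ℕ → Finset (IntermediateField ℚ (AlgebraicClosure K)),
        ∀ (q : ℕ) (M : IntermediateField ℚ (AlgebraicClosure K)),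
          M ∈ SS q ↔ (M ∈ P.image f ∧ Module.finrank ℚ M = q * n * d) :=
      ⟨fun q => (P.image f).filter (fun M : IntermediateField ℚ (AlgebraicClosure K) =>
        Module.finrank ℚ M = q * n * d), fun q M => Finset.mem_filter⟩
    have hcov : P.image f ⊆ (Finset.Icc 1 (n ^ r)).biUnion (fun q =>
        (SS q)) := by
      intro M hM
      obtain ⟨t, ht, rfl⟩ := Finset.mem_image.1 hM
      obtain ⟨q, hq1, hq2, hq3, -⟩ := key t ht
      rw [Finset.mem_biUnion]
      refine ⟨q, Finset.mem_Icc.2 ⟨hq1, le_trans (Nat.le_mul_of_pos_right q (by omega)) hq2⟩, ?_⟩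
      exact (hSS q _).2 ⟨hM, hq3⟩
    have h7 : (P.image f).card ≤ ∑ q ∈ Finset.Icc 1 (n ^ r),
        ((SS q)).card :=
      (Finset.card_le_card hcov).trans Finset.card_biUnion_le
    have h8 : ∀ q ∈ Finset.Icc 1 (n ^ r),
        (((SS q)).card : ℝ) ≤ c q * E := by
      intro q hq
      obtain ⟨hq1, -⟩ := Finset.mem_Icc.1 hq
      have hpos : 0 < q * n * d := Nat.mul_pos (Nat.mul_pos hq1 (by omega)) hd
      by_cases hemp : (SS q) = ∅
      · rw [hemp]
        simp only [Finset.card_empty, Nat.cast_zero]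
        exact mul_nonneg (hc0 q).le hE0
      · -- the degree determines `q`
        have hdeg : ∀ M ∈ (SS q),
            q * n ≤ n ^ r ∧ Module.finrank ℚ M = q * n * d ∧
            (∃ _ : NumberField M, ((discr M).natAbs : ℝ) ≤
              ((discr K).natAbs : ℝ) ^ (q * n) * X ^ (r * q)) ∧
            ∀ H : Subgroup (Equiv.Perm (Fin (q * n * d))),
              HasGroup ℚ (AlgebraicClosure K) (q * n * d) H M →
                ∀ h ∈ H, h ≠ 1 → q * m ≤ ind h := by
          intro M hM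
          obtain ⟨hM1, hM2⟩ := (hSS q M).1 hM
          obtain ⟨t, ht, rfl⟩ := Finset.mem_image.1 hM1
          obtain ⟨q', hq1', hq2', hq3', hq4', hq5'⟩ := key t ht
          have hqq : q' = q := by
            rw [hM2] at hq3'
            have h9 := Nat.eq_of_mul_eq_mul_right hd hq3'
            exact (Nat.eq_of_mul_eq_mul_right (by omega) h9).symm
          subst hqq
          exact ⟨hq2', hq3', hq4', hq5'⟩
        obtain ⟨M0, hM0⟩ := Finset.nonempty_iff_ne_empty.2 hemp
        have hqn := (hdeg M0 hM0).1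
        have hAB := h2 (q * n * d) (q * m) (AlgebraicClosure K) hpos
          ((SS q) :
            Set (IntermediateField ℚ (AlgebraicClosure K)))
          (((discr K).natAbs : ℝ) ^ (q * n) * X ^ (r * q))
          (fun M hM => (hdeg M (Finset.mem_coe.1 hM)).2)
        have h10 := hAB.2
        rw [Set.ncard_coe_finset] at h10
        have h11 := hcb q hq1 (((discr K).natAbs : ℝ) ^ (q * n) * X ^ (r * q)) (by positivity)
        have h12 := est n m r q hn hm1 hq1 hqn δ hδ ((discr K).natAbs : ℝ) X hdK hX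
        calc (((SS q)).card : ℝ)
            ≤ ((∑ H ∈ bigInd (q * n * d) (q * m), Pool.Agent.W670.ML.N ℚ (q * n * d) H
              (((discr K).natAbs : ℝ) ^ (q * n) * X ^ (r * q)) : ℕ) : ℝ) := by exact_mod_cast h10
          _ ≤ _ := h11
          _ ≤ c q * E := mul_le_mul_of_nonneg_left h12 (hc0 q).le
    calc ((P.image f).card : ℝ) ≤ ((∑ q ∈ Finset.Icc 1 (n ^ r),
        ((SS q)).card : ℕ) : ℝ) := by
          exact_mod_cast h7
      _ = ∑ q ∈ Finset.Icc 1 (n ^ r),
        (((SS q)).card : ℝ) := by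
          push_cast; rfl
      _ ≤ ∑ q ∈ Finset.Icc 1 (n ^ r), c q * E := Finset.sum_le_sum h8
      _ = D * E := by rw [hD, Finset.sum_mul]
  calc ((Pool.Agent.W670.ML.N K n G X : ℕ) : ℝ) ^ r = (P.card : ℝ) := by
        rw [hPcard]; push_cast; rfl
    _ ≤ ((Cm ^ r * (P.image f).card : ℕ) : ℝ) := by exact_mod_cast hfib
    _ = (Cm : ℝ) ^ r * ((P.image f).card : ℝ) := by push_cast; rfl
    _ ≤ (Cm : ℝ) ^ r * (D * E) := mul_le_mul_of_nonneg_left himg (by positivity)
    _ ≤ ((Cm : ℝ) ^ r * D + 1) * E := by nlinarith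

end Pool.Agent.W135.ML2
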